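import Mathlib
import Pool.Agent.W295.NL.Stm

set_option autoImplicit false

namespace Pool.Agent.W720.NL.MG

open Pool.Agent.W295.NL

theorem per_mod {α : Type} (g : ℕ → α) (p : ℕ) (hg : ∀ t, g (t + p) = g t) {a b : ℕ}
    (h : a ≡ b [MOD p]) : g a = g b := by
  have hp : Function.Periodic g p := hg
  rw [← hp.map_mod_nat a, ← hp.map_mod_nat b]
  have h' : a % p = b % p := h
  rw [h']

theorem main : S_MG := by
  rintro Q L n ⟨hev, hn, X, κ, hC, hκ, hX⟩
  have hper : ∀ t : ℕ, (((t + 2 * n) / n : ℕ) : ZMod 2) = ((t / n : ℕ) : ZMod 2) := by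
    intro t
    rw [Nat.add_mul_div_right _ _ hn]
    push_cast
    have h2 : (2 : ZMod 2) = 0 := by decide
    rw [h2, add_zero]
  have hstep : ∀ t : ℕ, (((t + n) / n : ℕ) : ZMod 2) = ((t / n : ℕ) : ZMod 2) + 1 := by
    intro t
    rw [Nat.add_div_right _ hn]
    push_cast
    rfl
  refine ⟨X, κ, fun t => ((t / n : ℕ) : ZMod 2), hC, hper, ?_⟩
  intro a t t' h
  rcases hX a t t' h with h1 | h2 | h3 | ⟨ha, hb, hm⟩
  · exact Or.inl h1
  · exact Or.inr (Or.inl h2)
  · exact Or.inr (Or.inr (Or.inl h3))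
  · refine Or.inr (Or.inr (Or.inr ⟨ha, hb, ?_, ?_, ?_⟩))
    · have : κ t' = κ t := by
        rw [per_mod κ (2 * n) hC.kper hm, hκ]
      rw [this]; exact ha
    · have : κ (t' + 1) = κ (t + 1) := by
        have h5 : t' + 1 ≡ t + n + 1 [MOD 2 * n] := hm.add_right 1
        rw [per_mod κ (2 * n) hC.kper h5, show t + n + 1 = t + 1 + n by ring, hκ]
      rw [this]; exact hb
    · have h6 : (((t' / n : ℕ)) : ZMod 2) = ((t / n : ℕ) : ZMod 2) + 1 := by
        have := per_mod (fun s : ℕ => ((s / n : ℕ) : ZMod 2)) (2 * n) hper hm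
        rw [this, hstep]
      intro hcon
      have h7 : ((t / n : ℕ) : ZMod 2) = ((t / n : ℕ) : ZMod 2) + 1 := by
        rw [← h6]; exact hcon
      have h8 : (1 : ZMod 2) = 0 := by
        have := congrArg (fun z => z - ((t / n : ℕ) : ZMod 2)) h7
        simpa using this.symm
      exact absurd h8 (by decide)

end Pool.Agent.W720.NL.MG
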